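import Pool.Agent.H.MP_056161_an.C

set_option autoImplicit false

namespace Pool.Agent.Results.MP_056161_an.No

open Set Metric MeasureTheory
open scoped Laplacian ContDiff NNReal

/-- bounded Lipschitz domain in the plane -/
def LipDomain (D : Set ℂ) : Prop :=
  IsOpen D ∧ IsConnected D ∧ Bornology.IsBounded D ∧ ∀ p ∈ frontier D, ∃ r > 0, ∃ e : ℂ, ‖e‖ = 1 ∧
    ∃ (g : ℝ → ℝ) (M : ℝ≥0), LipschitzWith M g ∧
      ∀ z ∈ ball p r, z ∈ D ↔ g (e * z).re < (e * z).im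

/-- `u` is a locally `C^{1,1}` solution of the free boundary problem in the disc of radius two -/
def Solves (D : Set ℂ) (u : ℂ → ℝ) : Prop :=
  DifferentiableOn ℝ u (ball 0 2) ∧
  (∀ s < 2, ∃ M : ℝ≥0, LipschitzOnWith M (fderiv ℝ u) (closedBall 0 s)) ∧
  (∀ᵐ z : ℂ, z ∈ ball 0 2 →
    DifferentiableAt ℝ (fderiv ℝ u) z ∧ Δ u z = z.re * D.indicator 1 z) ∧
  ∀ z ∈ ball 0 2, z ∉ closure D → u z = 0

/-- near the origin, after a rotation, the boundary is the graph of a function of class `P` -/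
def GraphNear (D : Set ℂ) (P : (ℝ → ℝ) → Set ℝ → Prop) : Prop :=
  ∃ ρ > 0, ∃ e : ℂ, ‖e‖ = 1 ∧ ∃ g : ℝ → ℝ, P g (Ioo (-ρ) ρ) ∧
    ∀ z ∈ ball 0 ρ, z ∈ frontier D ↔ (e * z).im = g (e * z).re

open H.MP_056161_an

lemma not_C2 : ¬GraphNear D (ContDiffOn ℝ 2) := by
  rintro ⟨ρ, hρ, e, he, g, h1, h2⟩
  have h3 : ContDiffOn ℝ 1 (deriv g) (Ioo (-ρ) ρ) := h1.deriv_of_isOpen isOpen_Ioo (by norm_num)
  obtain ⟨M, t, ht, h4⟩ := (h3.contDiffAt (Ioo_mem_nhds (neg_lt_zero.2 hρ) hρ)).exists_lipschitzOnWith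
  obtain ⟨r, r0, hr⟩ := Metric.mem_nhds_iff.1 ht
  refine not_smooth (C := M) (lt_min hρ r0) one_pos he (fun x hx => ⟨?_, ?_⟩)
    fun z hz => h2 z (ball_subset_ball (min_le_left _ _) hz)
  · exact (h1.contDiffAt (Ioo_mem_nhds (by linarith [hx.1, min_le_left ρ r])
      (by linarith [hx.2, min_le_left ρ r]))).differentiableAt two_ne_zero
  · simpa [Real.dist_eq] using h4.dist_le_mul x (hr (mem_ball_zero_iff.2 (abs_lt.2
      ⟨by linarith [hx.1, min_le_right ρ r], by linarith [hx.2, min_le_right ρ r]⟩))) 0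
      (hr (mem_ball_self r0))

theorem result : ∃ (D : Set ℂ) (u : ℂ → ℝ), LipDomain D ∧ 0 ∈ frontier D ∧ Solves D u ∧
    GraphNear D (ContDiffOn ℝ 1) ∧
    (∀ α : ℝ≥0, 0 < α → ¬GraphNear D fun g I =>
      ContDiffOn ℝ 1 g I ∧ ∃ C : ℝ≥0, HolderOnWith C α (deriv g) I) ∧
    ¬GraphNear D (ContDiffOn ℝ ∞) ∧ ¬GraphNear D (AnalyticOnNhd ℝ) := by
  refine ⟨D, u, ⟨D_open, D_conn, D_bdd, charts⟩, (front (by simp)).2 (by simp [f, T_zero]),
    ⟨fun z hz => (u_deriv (mem_ball_zero_iff.1 hz)).differentiableAt.differentiableWithinAt,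
      fun s hs => ⟨_, u_lip.mono (closedBall_subset_ball hs)⟩, ?_,
      fun z _ h => indicator_of_notMem (fun h' => h (subset_closure h')) _⟩,
    ⟨1, one_pos, Complex.I, by simp, f, f_C1, fun z hz => ?_⟩, ?_, ?_, ?_⟩
  · filter_upwards [measure_eq_zero_iff_ae_notMem.1 (D_conv.addHaar_frontier volume)] with z h hz
    exact lap (mem_ball_zero_iff.1 hz) h
  · rw [front ((mem_ball_zero_iff.1 hz).trans one_lt_two)]
    simp [f_neg]
  · rintro α hα ⟨ρ, hρ, e, he, g, ⟨h1, C, h3⟩, h2⟩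
    refine not_smooth (C := C) (α := α) hρ hα he (fun x hx => ⟨?_, ?_⟩) h2
    · exact (h1.contDiffAt (Ioo_mem_nhds hx.1 hx.2)).differentiableAt one_ne_zero
    · simpa [Real.dist_eq] using h3.dist_le hx ⟨neg_lt_zero.2 hρ, hρ⟩
  · rintro ⟨ρ, hρ, e, he, g, h1, h2⟩
    exact not_C2 ⟨ρ, hρ, e, he, g, h1.of_le (WithTop.coe_le_coe.2 (le_top : (2 : ℕ∞) ≤ ⊤)), h2⟩
  · rintro ⟨ρ, hρ, e, he, g, h1, h2⟩
    exact not_C2 ⟨ρ, hρ, e, he, g, h1.contDiffOn isOpen_Ioo.uniqueDiffOn, h2⟩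

end Pool.Agent.Results.MP_056161_an.No
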